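import Pool.Agent.H337R2.LZ.V1

/-!
# An upper bound for the potential of the zeta part on the poles

`FN w ≤ 64.77` for `-120 ≤ w ≤ -20` (the maximum is about `64.65`).
-/

namespace Pool.Agent.R346.EM

open Pool.Agent.H337R2 Pool.Agent.LZ

/-- the list of the potential, step `1/2`, denominator `3063060` -/
def l2 : List (ℤ × ℤ) :=
  [(-918918, -240), (255255, -232), (85085, -208), (-34034, -190), (34034, -170), (-34034, -152), (-70686, -112),
   (-235620, -86), (306306, -80), (306306, -60), (612612, -40), (306306, 0), (-252252, 40), (-185328, 74),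
   (-87516, 144), (-51480, 284), (-26754, 624), (-9282, 1944)]

/-- the integer bound -/
def A2 : ℤ := 137837700000000000000

lemma FN_eq2 (w : ℝ) : FN w = (36 * Real.log 2 + 14 * Real.log 5 + 18 * Real.log 3 - 25) +
    EF 3063060 2 l2 w := by
  rw [V1.FN_eq]
  congr 1
  simp only [EF, V1.lF, l2, List.map_cons, List.map_nil, List.sum_cons, List.sum_nil]
  norm_num

theorem k0 : cellOK 2 l2 A2 (-240) (-232) = true := by decide +kernel
theorem k1 : cellOK 2 l2 A2 (-232) (-214) = true := by decide +kernel
theorem k2 : cellOK 2 l2 A2 (-214) (-208) = true := by decide +kernel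
theorem k3 : cellOK 2 l2 A2 (-208) (-191) = true := by decide +kernel
theorem k4 : cellOK 2 l2 A2 (-191) (-190) = true := by decide +kernel
theorem k5 : cellOK 2 l2 A2 (-190) (-181) = true := by decide +kernel
theorem k6 : cellOK 2 l2 A2 (-181) (-173) = true := by decide +kernel
theorem k7 : cellOK 2 l2 A2 (-173) (-170) = true := by decide +kernel
theorem k8 : cellOK 2 l2 A2 (-170) (-158) = true := by decide +kernel
theorem k9 : cellOK 2 l2 A2 (-158) (-152) = true := by decide +kernel
theorem k10 : cellOK 2 l2 A2 (-152) (-130) = true := by decide +kernel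
theorem k11 : cellOK 2 l2 A2 (-130) (-112) = true := by decide +kernel
theorem k12 : cellOK 2 l2 A2 (-112) (-86) = true := by decide +kernel
theorem k13 : cellOK 2 l2 A2 (-86) (-80) = true := by decide +kernel
theorem k14 : cellOK 2 l2 A2 (-80) (-60) = true := by decide +kernel
theorem k15 : cellOK 2 l2 A2 (-60) (-40) = true := by decide +kernel

theorem kcell {x0 x1 : ℤ} (h : cellOK 2 l2 A2 x0 x1 = true) (w : ℝ) (h0 : (x0 : ℝ) ≤ 2 * w)
    (h1 : 2 * w ≤ x1) : EF 3063060 2 l2 w ≤ 45 / 2 := by
  have := cellOK_spec (Dc := 3063060) (by norm_num) (by norm_num) (by norm_num) h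
    (45 / 2) (by unfold A2; norm_num) (2 * w) h0 h1
  have e : 2 * w / ((2 : ℕ) : ℝ) = w := by push_cast; ring
  rwa [e] at this

theorem EF2_bound (w : ℝ) (h0 : -120 ≤ w) (h1 : w ≤ -20) : EF 3063060 2 l2 w ≤ 45 / 2 := by
  rcases le_or_gt (2 * w) (-232) with j0 | j0
  · exact kcell k0 w (by push_cast; linarith) (by push_cast; linarith)
  rcases le_or_gt (2 * w) (-214) with j1 | j1
  · exact kcell k1 w (by push_cast; linarith) (by push_cast; linarith)
  rcases le_or_gt (2 * w) (-208) with j2 | j2
  · exact kcell k2 w (by push_cast; linarith) (by push_cast; linarith)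
  rcases le_or_gt (2 * w) (-191) with j3 | j3
  · exact kcell k3 w (by push_cast; linarith) (by push_cast; linarith)
  rcases le_or_gt (2 * w) (-190) with j4 | j4
  · exact kcell k4 w (by push_cast; linarith) (by push_cast; linarith)
  rcases le_or_gt (2 * w) (-181) with j5 | j5
  · exact kcell k5 w (by push_cast; linarith) (by push_cast; linarith)
  rcases le_or_gt (2 * w) (-173) with j6 | j6
  · exact kcell k6 w (by push_cast; linarith) (by push_cast; linarith)
  rcases le_or_gt (2 * w) (-170) with j7 | j7
  · exact kcell k7 w (by push_cast; linarith) (by push_cast; linarith)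
  rcases le_or_gt (2 * w) (-158) with j8 | j8
  · exact kcell k8 w (by push_cast; linarith) (by push_cast; linarith)
  rcases le_or_gt (2 * w) (-152) with j9 | j9
  · exact kcell k9 w (by push_cast; linarith) (by push_cast; linarith)
  rcases le_or_gt (2 * w) (-130) with j10 | j10
  · exact kcell k10 w (by push_cast; linarith) (by push_cast; linarith)
  rcases le_or_gt (2 * w) (-112) with j11 | j11
  · exact kcell k11 w (by push_cast; linarith) (by push_cast; linarith)
  rcases le_or_gt (2 * w) (-86) with j12 | j12
  · exact kcell k12 w (by push_cast; linarith) (by push_cast; linarith)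
  rcases le_or_gt (2 * w) (-80) with j13 | j13
  · exact kcell k13 w (by push_cast; linarith) (by push_cast; linarith)
  rcases le_or_gt (2 * w) (-60) with j14 | j14
  · exact kcell k14 w (by push_cast; linarith) (by push_cast; linarith)
  exact kcell k15 w (by push_cast; linarith) (by push_cast; linarith)

/-- **the potential of the zeta part on the poles** -/
theorem FN_poles (w : ℝ) (h0 : -120 ≤ w) (h1 : w ≤ -20) : FN w ≤ 6477 / 100 := by
  rw [FN_eq2]
  linarith [EF2_bound w h0 h1, V1.const_bounds.2]

end Pool.Agent.R346.EM
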