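import Pool.Agent.R346.EM.Arch
import Pool.Agent.H103R2.LM.P
import Pool.Agent.H103R2.LM.H

/-!
# An explicit measure for the distance of `ζ(3)` to `ℚ + ℚ ζ(2)`
-/

open Polynomial Pool.Agent.H337R2 Filter Topology Pool.Agent.LZ Pool.Agent.LM

namespace Pool.Agent.R346.EM

noncomputable section

/-- a prime slightly larger than `M` which does not divide `d` -/
theorem prime_sel : ∃ M0 : ℕ, ∀ M : ℕ, M0 ≤ M → ∀ d : ℕ, d ≠ 0 → Real.log d < M →
    ∃ p : ℕ, p.Prime ∧ M < p ∧ (p : ℝ) ≤ 1002 / 1000 * M + Real.log d ∧ ¬ p ∣ d := by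
  classical
  have hall : ∀ᶠ M : ℕ in atTop, ∀ j ∈ Finset.Icc (1 : ℕ) 1001, ((j : ℝ) - 1) / 1000 <
      (∑ p ∈ PR 1 (1 + (j : ℚ) / 1000) M, (M : ℝ) * Real.log p) / (M : ℝ) ^ 2 := by
    rw [Filter.eventually_all_finset]
    intro j hj
    rw [Finset.mem_Icc] at hj
    have hj1 : (1 : ℚ) ≤ j := by exact_mod_cast hj.1
    have hj2 : (j : ℚ) ≤ 1001 := by exact_mod_cast hj.2
    have h := F1_lin 1 (1 + (j : ℚ) / 1000) (by norm_num) (by linarith) (by linarith) 1 0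
    have hlt : ((j : ℝ) - 1) / 1000 < ((((1 : ℤ) * ((1 + (j : ℚ) / 1000) - 1) +
        (0 : ℤ) * ((1 + (j : ℚ) / 1000) ^ 2 - 1 ^ 2) / 2 : ℚ)) : ℝ) := by
      push_cast
      linarith
    filter_upwards [h.eventually_const_lt hlt] with M hM
    simpa using hM
  obtain ⟨M0, hM0⟩ := eventually_atTop.1 (hall.and (eventually_ge_atTop 1))
  refine ⟨M0, fun M hM d hd hlog => ?_⟩
  obtain ⟨h3, h4⟩ := hM0 M hM
  have hM1 : (0 : ℝ) < M := by exact_mod_cast h4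
  have hl0 : 0 ≤ Real.log d := Real.log_natCast_nonneg d
  set j : ℕ := ⌊1000 * Real.log d / M⌋₊ + 2 with hj
  have hx0 : 0 ≤ 1000 * Real.log d / M := by positivity
  have hx1 : 1000 * Real.log d / M < 1000 := by
    rw [div_lt_iff₀ hM1]
    linarith
  have hf1 : (⌊1000 * Real.log d / M⌋₊ : ℝ) ≤ 1000 * Real.log d / M := Nat.floor_le hx0
  have hf2 : 1000 * Real.log d / M < (⌊1000 * Real.log d / M⌋₊ : ℝ) + 1 := Nat.lt_floor_add_one _
  have hf3 : ⌊1000 * Real.log d / M⌋₊ < 1000 := by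
    rw [Nat.floor_lt hx0]
    exact_mod_cast hx1
  have hjr : (j : ℝ) = (⌊1000 * Real.log d / M⌋₊ : ℝ) + 2 := by rw [hj]; push_cast; ring
  have h5 := h3 j (Finset.mem_Icc.2 ⟨by omega, by omega⟩)
  by_contra hcon
  push Not at hcon
  have hmem : ∀ p ∈ PR 1 (1 + (j : ℚ) / 1000) M, p.Prime ∧ M < p ∧ (p : ℝ) ≤ (1 + (j : ℝ) / 1000) * M := by
    intro p hp
    unfold PR at hp
    simp only [Finset.mem_filter] at hp
    obtain ⟨-, q1, q2, q3⟩ := hp
    rw [one_mul] at q2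
    refine ⟨q1, by exact_mod_cast q2, ?_⟩
    have := (Rat.cast_le (K := ℝ)).2 q3
    push_cast at this
    exact this
  have hdvd : ∏ p ∈ PR 1 (1 + (j : ℚ) / 1000) M, p ∣ d := by
    apply Finset.prod_primes_dvd
    · intro p hp
      exact (hmem p hp).1.prime
    · intro p hp
      obtain ⟨q1, q2, q3⟩ := hmem p hp
      refine hcon p q1 q2 (q3.trans ?_)
      have e1 : (1 + (j : ℝ) / 1000) * M = M + (⌊1000 * Real.log d / M⌋₊ : ℝ) * M / 1000 + 2 / 1000 * M := by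
        rw [hjr]; ring
      have e2 : (⌊1000 * Real.log d / M⌋₊ : ℝ) * M ≤ 1000 * Real.log d := by
        rw [← le_div_iff₀ hM1]
        exact hf1
      rw [e1]
      linarith
  have hle : ∏ p ∈ PR 1 (1 + (j : ℚ) / 1000) M, p ≤ d := Nat.le_of_dvd (Nat.pos_of_ne_zero hd) hdvd
  have hpos : ∀ p ∈ PR 1 (1 + (j : ℚ) / 1000) M, (p : ℝ) ≠ 0 :=
    fun p hp => by exact_mod_cast (hmem p hp).1.ne_zero
  have hl : ∑ p ∈ PR 1 (1 + (j : ℚ) / 1000) M, Real.log p ≤ Real.log d := by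
    rw [← Real.log_prod hpos]
    apply Real.log_le_log
    · exact Finset.prod_pos fun p hp => by exact_mod_cast (hmem p hp).1.pos
    · have : ((∏ p ∈ PR 1 (1 + (j : ℚ) / 1000) M, p : ℕ) : ℝ) ≤ (d : ℝ) := by exact_mod_cast hle
      push_cast at this
      exact this
  rw [← Finset.mul_sum, lt_div_iff₀ (by positivity)] at h5
  have h6 : ((j : ℝ) - 1) / 1000 * M < ∑ p ∈ PR 1 (1 + (j : ℚ) / 1000) M, Real.log p := by
    have e1 : ((j : ℝ) - 1) / 1000 * (M : ℝ) ^ 2 = M * (((j : ℝ) - 1) / 1000 * M) := by ring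
    rw [e1] at h5
    exact lt_of_mul_lt_mul_left h5 hM1.le
  have h7 : Real.log d < ((j : ℝ) - 1) / 1000 * M := by
    rw [div_lt_iff₀ hM1] at hf2
    rw [hjr]
    linarith
  linarith

lemma QI_div (a d : ℤ) (hd : d ≠ 0) : QI d.natAbs (-(a : ℚ) / d) := by
  have hd' : (d : ℚ) ≠ 0 := by exact_mod_cast hd
  refine ⟨Int.natAbs_pos.2 hd, -a * d.sign, ?_⟩
  have h : (d.natAbs : ℚ) = d * d.sign := by
    rw [← Int.cast_mul, Int.mul_sign_self, Int.cast_natCast]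
  rw [h]
  push_cast
  field_simp

/-- **explicit measure** -/
theorem measure_x : ∃ c : ℝ, 0 < c ∧ ∀ a b d : ℤ, d ≠ 0 → ∀ m : ℝ, |(b : ℝ)| ≤ m → |(d : ℝ)| ≤ m →
    c * |(d : ℝ)| ^ (-(141 : ℝ)) * m ^ (-(88 : ℝ)) ≤ |(a : ℝ) + b * zr 2 + d * zr 3| := by
  obtain ⟨p0, hp0⟩ := HU_nonvanish
  have hA := arch
  have hP := PU_main (1 / 100) (by norm_num)
  obtain ⟨M0, hM0⟩ := prime_sel
  obtain ⟨N, hN⟩ := eventually_atTop.1 (hP.and (hA.and (eventually_ge_atTop 1)))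
  set N1 : ℕ := N + p0 + M0 with hN1
  refine ⟨Real.exp (-(55 * (N1 + 4 + 1))), Real.exp_pos _, ?_⟩
  intro a b d hd m hbm hdm
  by_contra hlt
  push Not at hlt
  set q : ℕ := d.natAbs with hq
  have hq0 : q ≠ 0 := Int.natAbs_ne_zero.2 hd
  have hqr : (q : ℝ) = |(d : ℝ)| := by
    rw [hq, Nat.cast_natAbs]; push_cast; rfl
  have hqpos : (0 : ℝ) < q := by exact_mod_cast Nat.pos_of_ne_zero hq0
  have hq1 : (1 : ℝ) ≤ q := by exact_mod_cast Nat.one_le_iff_ne_zero.2 hq0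
  have hqm : (q : ℝ) ≤ m := by rw [hqr]; exact hdm
  have hm1 : 1 ≤ m := hq1.trans hqm
  have hm0 : 0 < m := by linarith
  rw [← hqr] at hlt
  set Lq : ℝ := Real.log q with hLq
  set Lm : ℝ := Real.log m with hLm
  have hLq0 : 0 ≤ Lq := Real.log_nonneg hq1
  have hLqm : Lq ≤ Lm := Real.log_le_log hqpos hqm
  have hLm0 : 0 ≤ Lm := hLq0.trans hLqm
  set M : ℕ := N1 + ⌈1599 / 1000 * (Lq + Lm)⌉₊ + 3 with hM
  have hc1 : 1599 / 1000 * (Lq + Lm) ≤ (⌈1599 / 1000 * (Lq + Lm)⌉₊ : ℝ) := Nat.le_ceil _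
  have hc2 : (⌈1599 / 1000 * (Lq + Lm)⌉₊ : ℝ) < 1599 / 1000 * (Lq + Lm) + 1 := Nat.ceil_lt_add_one (by positivity)
  have hMr : (M : ℝ) = N1 + (⌈1599 / 1000 * (Lq + Lm)⌉₊ : ℝ) + 3 := by rw [hM]; push_cast; ring
  have hN1r : (0 : ℝ) ≤ N1 := Nat.cast_nonneg _
  obtain ⟨n, hnp, hn1, hn2, hnd⟩ := hM0 M (by omega) q hq0 (by rw [← hLq]; linarith)
  rw [← hLq] at hn2
  have hF : Fact n.Prime := ⟨hnp⟩
  have hnN : N ≤ n := by omega
  obtain ⟨h1, h2, h4⟩ := hN n hnN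
  have hnr : (M : ℝ) < n := by exact_mod_cast hn1
  have hn0 : (0 : ℝ) < n := by linarith
  set α : ℚ := -(a : ℚ) / d with hα'
  set β : ℚ := -(b : ℚ) / d with hβ'
  have hα : QI q α := QI_div a d hd
  have hβ : QI q β := QI_div b d hd
  have hpd : padicNorm n (d : ℚ) = 1 := by
    rw [padicNorm.int_eq_one_iff]
    intro hdv
    exact hnd (Int.natCast_dvd.1 hdv)
  have hpα : padicNorm n α ≤ 1 := by
    rw [hα', padicNorm.div, hpd, div_one, padicNorm.neg]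
    exact padicNorm.of_int a
  have hpβ : padicNorm n β ≤ 1 := by
    rw [hβ', padicNorm.div, hpd, div_one, padicNorm.neg]
    exact padicNorm.of_int b
  have hne := hp0 n (by omega) hnp α β hpα hpβ
  have hd' : (d : ℝ) ≠ 0 := by exact_mod_cast hd
  have het : et α β = ((a : ℝ) + b * zr 2 + d * zr 3) / d := by
    unfold et
    rw [hα', hβ']
    push_cast
    field_simp
    ring
  have heta : |et α β| ≤ Real.exp (-(1087 / 20 * n)) := by
    rw [het, abs_div, ← hqr, div_le_iff₀ hqpos]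
    refine hlt.le.trans ?_
    have e0 : (q : ℝ) = Real.exp Lq := (Real.exp_log hqpos).symm
    rw [Real.rpow_def_of_pos hqpos, Real.rpow_def_of_pos hm0, ← hLq, ← hLm, ← Real.exp_add, ← Real.exp_add]
    have e1 : Real.exp (-(1087 / 20 * (n : ℝ))) * (q : ℝ) = Real.exp (-(1087 / 20 * (n : ℝ)) + Lq) := by
      rw [Real.exp_add, ← e0]
    rw [e1]
    apply Real.exp_le_exp.2
    have e2 : (n : ℝ) ≤ 1002 / 1000 * (N1 + 4) + 16023 / 10000 * Lm + 26023 / 10000 * Lq := by linarith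
    linarith
  have h1' := h1 q α β hα hβ hne
  have h2' := h2 α β heta hne
  set z : ℚ := (q : ℚ) ^ (14 * n) * Pool.Agent.LZ.DD n α β with hz
  have hqq : (q : ℚ) ≠ 0 := by exact_mod_cast hq0
  have hz0 : z ≠ 0 := mul_ne_zero (pow_ne_zero _ hqq) hne
  have hS : ∀ p ∈ (Finset.range (14 * n + 1)).filter Nat.Prime, p.Prime := fun p hp =>
    (Finset.mem_filter.1 hp).2
  have hprod := Pool.Agent.H336R2.HD.A5_prod_formula z hz0 ((Finset.range (14 * n + 1)).filter Nat.Prime) hS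
    (fun p => ((padicNorm p z : ℚ) : ℝ)) (fun p _ => le_rfl) (fun p hp hpS => by
      apply P_large q α β hα hβ n h4 p hp
      by_contra hlt
      apply hpS
      rw [Finset.mem_filter, Finset.mem_range]
      exact ⟨by omega, hp⟩)
  have hpos : ∀ p ∈ (Finset.range (14 * n + 1)).filter Nat.Prime, ((padicNorm p z : ℚ) : ℝ) ≠ 0 :=
    fun p hp => (PM_z_pos p (hS p hp) z hz0).ne'
  have hDpos : 0 < |((Pool.Agent.LZ.DD n α β : ℚ) : ℝ)| := abs_pos.2 (by exact_mod_cast hne)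
  have habs : |(z : ℝ)| = (q : ℝ) ^ (14 * n) * |((Pool.Agent.LZ.DD n α β : ℚ) : ℝ)| := by
    rw [hz]
    push_cast
    rw [abs_mul, abs_of_pos (pow_pos hqpos _)]
  have hlog := Real.log_nonneg hprod
  rw [habs, Real.log_mul (mul_pos (pow_pos hqpos _) hDpos).ne' (Finset.prod_ne_zero_iff.2 hpos),
    Real.log_mul (pow_pos hqpos _).ne' hDpos.ne', Real.log_pow, Real.log_prod (fun p hp => hpos p hp)] at hlog
  push_cast at hlog
  rw [← hLq] at hlog
  -- the size of β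
  have hβH : Real.log (1 + |(β : ℝ)|) ≤ Lm - Lq + 7 / 10 := by
    have b1 : 1 + |(β : ℝ)| ≤ 2 * m / q := by
      rw [hβ']
      push_cast
      rw [abs_div, abs_neg, ← hqr, le_div_iff₀ hqpos, add_mul, div_mul_cancel₀ _ hqpos.ne']
      linarith
    have b2 : Real.log (1 + |(β : ℝ)|) ≤ Real.log (2 * m / q) :=
      Real.log_le_log (by linarith [abs_nonneg (β : ℝ)]) b1
    rw [Real.log_div (by positivity) hqpos.ne', Real.log_mul (by norm_num) hm0.ne'] at b2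
    have b3 := Real.log_two_lt_d9
    linarith
  have s1 : 7 * (n : ℝ) * Real.log (1 + |(β : ℝ)|) ≤ 7 * n * (Lm - Lq + 7 / 10) :=
    mul_le_mul_of_nonneg_left hβH (by positivity)
  have s3 : (0 : ℝ) ≤ n * (7 * Lq + 7 * Lm + 49 / 10 - 438 / 100 * n) := by
    have : (n : ℝ) * (7 * Lq + 7 * Lm + 49 / 10 - 438 / 100 * n) =
      14 * n * Lq + 7 * n * (Lm - Lq + 7 / 10) - 438 / 100 * (n : ℝ) ^ 2 := by ring
    rw [this]
    linarith
  have s4 : 7 * Lq + 7 * Lm + 49 / 10 - 438 / 100 * (n : ℝ) < 0 := by linarith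
  have s5 : (n : ℝ) * (7 * Lq + 7 * Lm + 49 / 10 - 438 / 100 * n) < 0 := mul_neg_of_pos_of_neg hn0 s4
  linarith

end

end Pool.Agent.R346.EM
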